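import Pool.Agent.T9h98.DC.Defs

/-!
# Pieces (DIM), (SYM), (FISO) of project DC
-/

set_option autoImplicit false

open Set

namespace Pool.Agent.T9h29.DC

open Pool.Agent.T9h98.DC

/-! ### DIM -/

lemma finrank_lt {d : ℕ} {P F F' : Set (E d)} (hF : IsFace P F) (hF' : F' ⊆ P) (h : F ⊂ F') :
    Module.finrank ℝ (vectorSpan ℝ F) < Module.finrank ℝ (vectorSpan ℝ F') := by
  obtain ⟨hne, hex⟩ := hF
  obtain ⟨l, hl⟩ := hex hne
  obtain ⟨x, hx⟩ := hne
  obtain ⟨y, hy, hyF⟩ := Set.exists_of_ssubset h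
  have hxm : x ∈ P ∧ ∀ z ∈ P, l z ≤ l x := by
    have := hx
    rw [hl] at this
    exact this
  have hlt : l y < l x := by
    by_contra hcon
    apply hyF
    rw [hl]
    exact ⟨hF' hy, fun z hz => (hxm.2 z hz).trans (not_lt.1 hcon)⟩
  apply Submodule.finrank_lt_finrank_of_lt
  refine lt_of_le_of_ne (vectorSpan_mono ℝ h.1) fun heq => ?_
  have h1 : y -ᵥ x ∈ vectorSpan ℝ F' := vsub_mem_vectorSpan ℝ hy (h.1 hx)
  rw [← heq] at h1
  have h2 : vectorSpan ℝ F ≤ LinearMap.ker (l : E d →ₗ[ℝ] ℝ) := by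
    unfold vectorSpan
    rw [Submodule.span_le]
    rintro _ ⟨a, ha, b, hb, rfl⟩
    have ha' := ha
    have hb' := hb
    rw [hl] at ha' hb'
    have e1 := ha'.2 b hb'.1
    have e2 := hb'.2 a ha'.1
    simp only [SetLike.mem_coe, LinearMap.mem_ker, vsub_eq_sub]
    change l (a - b) = 0
    rw [map_sub]
    linarith
  have h3 := h2 h1
  rw [LinearMap.mem_ker] at h3
  have h4 : l (y - x) = 0 := h3
  rw [map_sub] at h4
  linarith

theorem dim : S_DIM := by
  constructor
  · intro d P F hF hmono hne i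
    have hsub : ∀ i, F i ⊆ P := fun i => by
      obtain ⟨hne', hex⟩ := hF i
      exact hex.subset
    set f : Fin d → ℕ := fun i => Module.finrank ℝ (vectorSpan ℝ (F i)) with hf
    have hd : Module.finrank ℝ (E d) = d := finrank_euclideanSpace_fin
    have h1 : StrictMono f := fun i j hij => finrank_lt (hF i) (hsub j) (hmono hij)
    have h2 : ∀ i, f i < d := fun i => by
      have h3 : F i ⊂ P := lt_of_le_of_ne (hsub i) (hne i)
      refine (finrank_lt (hF i) (subset_refl P) h3).trans_le ?_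
      exact (Submodule.finrank_le _).trans_eq hd
    set f' : Fin d → Fin d := fun i => ⟨f i, h2 i⟩ with hf'
    have h4 : StrictMono f' := fun i j hij => h1 hij
    have h5 : f' i = i := le_antisymm h4.apply_le h4.le_apply
    exact congrArg Fin.val h5
  · intro d P hP
    have h1 : affineSpan ℝ P = ⊤ :=
      affineSpan_eq_top_of_nonempty_interior (hP.mono (interior_mono (subset_convexHull ℝ P)))
    rw [AffineSubspace.vectorSpan_eq_top_of_affineSpan_eq_top ℝ _ _ h1, finrank_top]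
    exact finrank_euclideanSpace_fin

/-! ### FISO -/

theorem fiso : S_FISO := by
  intro d P F g hg hF
  obtain ⟨hne, hex⟩ := hF
  obtain ⟨l, hl⟩ := hex hne
  refine ⟨hne.image g, fun _ => ?_⟩
  set A := g.toRealAffineIsometryEquiv with hA
  have hAg : ∀ x, A x = g x := fun x => by
    rw [hA, IsometryEquiv.coeFn_toRealAffineIsometryEquiv]
  set L := A.linearIsometryEquiv with hL
  have hdiff : ∀ x y, g x - g y = L (x - y) := fun x y => by
    rw [← hAg, ← hAg, hL]
    exact (A.map_vsub x y).symm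
  refine ⟨l.comp (L.symm.toContinuousLinearEquiv : E d →L[ℝ] E d), ?_⟩
  have key : ∀ x y, (l.comp (L.symm.toContinuousLinearEquiv : E d →L[ℝ] E d)) (g x) -
      (l.comp (L.symm.toContinuousLinearEquiv : E d →L[ℝ] E d)) (g y) = l x - l y := by
    intro x y
    rw [← map_sub, hdiff]
    simp
  have hgP : ∀ x ∈ P, g x ∈ P := fun x hx => by
    have : g x ∈ g '' P := ⟨x, hx, rfl⟩
    rwa [hg] at this
  ext z
  constructor
  · rintro ⟨x, hx, rfl⟩
    have hx' := hx
    rw [hl] at hx'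
    refine ⟨hgP x hx'.1, fun w hw => ?_⟩
    rw [← hg] at hw
    obtain ⟨y, hy, rfl⟩ := hw
    have := key x y
    have h2 := hx'.2 y hy
    linarith
  · rintro ⟨hz, hz2⟩
    rw [← hg] at hz
    obtain ⟨x, hx, rfl⟩ := hz
    refine ⟨x, ?_, rfl⟩
    rw [hl]
    refine ⟨hx, fun y hy => ?_⟩
    have := key x y
    have h2 := hz2 (g y) (hgP y hy)
    linarith

/-! ### SYM -/

theorem sym : S_SYM := by
  intro d σ K
  refine ⟨(LinearIsometryEquiv.piLpCongrLeft 2 ℝ ℝ σ).trans
    (LinearIsometryEquiv.piLpCongrRight 2 fun i =>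
      if K i = 0 then LinearIsometryEquiv.refl ℝ ℝ else LinearIsometryEquiv.neg ℝ), fun T => ?_⟩
  ext i
  rw [LinearIsometryEquiv.trans_apply, LinearIsometryEquiv.piLpCongrRight_apply]
  rw [LinearIsometryEquiv.piLpCongrLeft_apply]
  simp only [Equiv.piCongrLeft', Equiv.coe_fn_mk, pt_apply]
  have h2 : (1 : ZMod 2) + 1 = 0 := by decide
  rcases zmod2 (K i) with h | h <;> rcases zmod2 (T (σ.symm i)) with h' | h' <;>
    simp [h, h', h2]

end Pool.Agent.T9h29.DC
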